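import Pool.Agent.C75W.Im

/-!
Numbers of the runs of a rotation (MP_c75db0, plan W, rows NB1 and NB2): `h = cosh t`,
`chS h n = sinh (n t) / sinh t`, `chC h n = cosh (n t)`, `chD h n` the derivative of `chS` in `h`,
`chR = chC / chS`, `chO = (h² - 1) / chR`, and the inequality `chS³ ≤ 4 chD chC²` for `n ≥ 2`.
-/

set_option autoImplicit false
noncomputable section
namespace Pool.Agent.Helper6.MONO.W2

/-- the pair `(S_n, C_n)`, `S_n = sinh (n t) / sinh t`, `C_n = cosh (n t)`, `h = cosh t` -/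
def chP (h : ℝ) : ℕ → ℝ × ℝ
  | 0 => (0, 1)
  | n + 1 => ((chP h n).2 + h * (chP h n).1, h * (chP h n).2 + (h ^ 2 - 1) * (chP h n).1)

def chS (h : ℝ) (n : ℕ) : ℝ := (chP h n).1
def chC (h : ℝ) (n : ℕ) : ℝ := (chP h n).2

theorem chS_zero (h : ℝ) : chS h 0 = 0 := rfl
theorem chC_zero (h : ℝ) : chC h 0 = 1 := rfl
theorem chS_succ (h : ℝ) (n : ℕ) : chS h (n + 1) = chC h n + h * chS h n := rfl
theorem chC_succ (h : ℝ) (n : ℕ) : chC h (n + 1) = h * chC h n + (h ^ 2 - 1) * chS h n := rfl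

/-- derivative of `chS` in `h` -/
def chD (h : ℝ) : ℕ → ℝ
  | 0 => 0
  | n + 1 => ((n : ℝ) + 1) * chS h n + h * chD h n

theorem chD_zero (h : ℝ) : chD h 0 = 0 := rfl
theorem chD_succ (h : ℝ) (n : ℕ) : chD h (n + 1) = ((n : ℝ) + 1) * chS h n + h * chD h n := rfl

theorem chC_sq (h : ℝ) (n : ℕ) : chC h n ^ 2 - (h ^ 2 - 1) * chS h n ^ 2 = 1 := by
  induction n with
  | zero => simp [chS_zero, chC_zero]
  | succ n ih => rw [chS_succ, chC_succ]; linear_combination ih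

theorem chD_eq (h : ℝ) (n : ℕ) : (h ^ 2 - 1) * chD h n = n * chC h n - h * chS h n := by
  induction n with
  | zero => simp [chD_zero, chS_zero]
  | succ n ih => rw [chD_succ, chS_succ, chC_succ]; push_cast; linear_combination h * ih

theorem chS_one (h : ℝ) : chS h 1 = 1 := by rw [chS_succ, chS_zero, chC_zero]; ring
theorem chC_one (h : ℝ) : chC h 1 = h := by rw [chC_succ, chS_zero, chC_zero]; ring
theorem chS_two (h : ℝ) : chS h 2 = 2 * h := by rw [chS_succ, chS_one, chC_one]; ring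
theorem chC_two (h : ℝ) : chC h 2 = 2 * h ^ 2 - 1 := by rw [chC_succ, chS_one, chC_one]; ring
theorem chD_one (h : ℝ) : chD h 1 = 0 := by rw [chD_succ, chS_zero, chD_zero]; ring
theorem chD_two (h : ℝ) : chD h 2 = 2 := by rw [chD_succ, chS_one, chD_one]; norm_num

/-! ### bounds for `1 ≤ h` -/

theorem ch_ge {h : ℝ} (hh : 1 ≤ h) (n : ℕ) : (n : ℝ) ≤ chS h n ∧ 1 ≤ chC h n ∧ 0 ≤ chD h n := by
  induction n with
  | zero => simp [chS_zero, chC_zero, chD_zero]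
  | succ n ih =>
    obtain ⟨h1, h2, h3⟩ := ih
    have h0 : (0 : ℝ) ≤ n := Nat.cast_nonneg n
    have h4 : 0 ≤ chS h n := h0.trans h1
    rw [chS_succ, chC_succ, chD_succ]
    push_cast
    refine ⟨by nlinarith, by nlinarith [mul_nonneg (by nlinarith : (0:ℝ) ≤ h ^ 2 - 1) h4], ?_⟩
    positivity

theorem chS_ge {h : ℝ} (hh : 1 ≤ h) (n : ℕ) : (n : ℝ) ≤ chS h n := (ch_ge hh n).1
theorem chC_ge {h : ℝ} (hh : 1 ≤ h) (n : ℕ) : 1 ≤ chC h n := (ch_ge hh n).2.1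
theorem chD_nn {h : ℝ} (hh : 1 ≤ h) (n : ℕ) : 0 ≤ chD h n := (ch_ge hh n).2.2

theorem chS_pos {h : ℝ} (hh : 1 ≤ h) {n : ℕ} (hn : 1 ≤ n) : 0 < chS h n := by
  have := chS_ge hh n
  have h1 : (1 : ℝ) ≤ n := by exact_mod_cast hn
  linarith

theorem chC_pos {h : ℝ} (hh : 1 ≤ h) (n : ℕ) : 0 < chC h n := by
  have := chC_ge hh n
  linarith

theorem chS_lt {h : ℝ} (hh : 1 ≤ h) (n : ℕ) : chS h n + 1 ≤ chS h (n + 1) := by
  have h1 := chC_ge hh n
  have h2 : 0 ≤ chS h n := (Nat.cast_nonneg n).trans (chS_ge hh n)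
  rw [chS_succ]
  nlinarith

theorem chS_mono {h : ℝ} (hh : 1 ≤ h) : StrictMono (chS h) :=
  strictMono_nat_of_lt_succ fun n => by have := chS_lt hh n; linarith

/-- `r_n = C_n / S_n` -/
def chR (h : ℝ) (n : ℕ) : ℝ := chC h n / chS h n

theorem chR_pos {h : ℝ} (hh : 1 ≤ h) {n : ℕ} (hn : 1 ≤ n) : 0 < chR h n :=
  div_pos (chC_pos hh n) (chS_pos hh hn)

theorem chR_mul {h : ℝ} (hh : 1 ≤ h) {n : ℕ} (hn : 1 ≤ n) : chR h n * chS h n = chC h n := by
  rw [chR, div_mul_cancel₀ _ (chS_pos hh hn).ne']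

theorem chR_sq {h : ℝ} (hh : 1 ≤ h) {n : ℕ} (hn : 1 ≤ n) :
    chR h n ^ 2 = (h ^ 2 - 1) + 1 / chS h n ^ 2 := by
  have h1 := chC_sq h n
  have h2 := (chS_pos hh hn).ne'
  rw [chR]
  field_simp
  linear_combination h1

theorem chR_anti {h : ℝ} (hh : 1 ≤ h) {m n : ℕ} (hm : 1 ≤ m) (hmn : m ≤ n) :
    chR h n ≤ chR h m := by
  have hn : 1 ≤ n := hm.trans hmn
  have h1 := chR_sq hh hn
  have h2 := chR_sq hh hm
  have h3 : chS h m ≤ chS h n := (chS_mono hh).monotone hmn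
  have h4 := chS_pos hh hm
  have h5 : 1 / chS h n ^ 2 ≤ 1 / chS h m ^ 2 := by
    apply one_div_le_one_div_of_le (by positivity)
    exact pow_le_pow_left₀ h4.le h3 2
  exact (pow_le_pow_iff_left₀ (chR_pos hh hn).le (chR_pos hh hm).le two_ne_zero).1 (by linarith)

theorem chR_lt {h : ℝ} (hh : 1 ≤ h) {m n : ℕ} (hm : 1 ≤ m) (hmn : m < n) :
    chR h n < chR h m := by
  have hn : 1 ≤ n := hm.trans hmn.le
  have h1 := chR_sq hh hn
  have h2 := chR_sq hh hm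
  have h3 : chS h m < chS h n := chS_mono hh hmn
  have h4 := chS_pos hh hm
  have h5 : 1 / chS h n ^ 2 < 1 / chS h m ^ 2 := by
    apply one_div_lt_one_div_of_lt (by positivity)
    exact pow_lt_pow_left₀ h3 h4.le two_ne_zero
  exact (pow_lt_pow_iff_left₀ (chR_pos hh hn).le (chR_pos hh hm).le two_ne_zero).1 (by linarith)

theorem chR_le {h : ℝ} (hh : 1 ≤ h) {n : ℕ} (hn : 1 ≤ n) : chR h n ≤ h := by
  have h1 := chR_anti hh le_rfl hn
  have h2 : chR h 1 = h := by rw [chR, chC_one, chS_one, div_one]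
  linarith

theorem chR_sq_ge {h : ℝ} (hh : 1 ≤ h) {n : ℕ} (hn : 1 ≤ n) : h ^ 2 - 1 ≤ chR h n ^ 2 := by
  have h1 := chR_sq hh hn
  have h2 := chS_pos hh hn
  have h3 : 0 < 1 / chS h n ^ 2 := by positivity
  linarith

theorem chR_sq_le {h : ℝ} (hh : 1 ≤ h) {n : ℕ} (hn : 1 ≤ n) :
    chR h n ^ 2 ≤ (h ^ 2 - 1) + 1 / (n : ℝ) ^ 2 := by
  have h1 := chR_sq hh hn
  have h2 := chS_ge hh n
  have h3 : (0 : ℝ) < n := by exact_mod_cast hn
  have h5 : 1 / chS h n ^ 2 ≤ 1 / (n : ℝ) ^ 2 := by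
    apply one_div_le_one_div_of_le (by positivity)
    exact pow_le_pow_left₀ h3.le h2 2
  linarith

/-- `om = (h² - 1) / r` -/
def chO (h : ℝ) (n : ℕ) : ℝ := (h ^ 2 - 1) / chR h n

theorem chO_nn {h : ℝ} (hh : 1 ≤ h) {n : ℕ} (hn : 1 ≤ n) : 0 ≤ chO h n :=
  div_nonneg (by nlinarith) (chR_pos hh hn).le

theorem chO_mul {h : ℝ} (hh : 1 ≤ h) {n : ℕ} (hn : 1 ≤ n) : chO h n * chR h n = h ^ 2 - 1 := by
  rw [chO, div_mul_cancel₀ _ (chR_pos hh hn).ne']

theorem chO_le {h : ℝ} (hh : 1 ≤ h) {n : ℕ} (hn : 1 ≤ n) : chO h n ≤ chR h n := by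
  rw [chO, div_le_iff₀ (chR_pos hh hn)]
  have := chR_sq_ge hh hn
  nlinarith

/-- `n r ≥ h` -/
theorem chR_n {h : ℝ} (hh : 1 ≤ h) {n : ℕ} (hn : 1 ≤ n) : h ≤ n * chR h n := by
  have h1 := chD_eq h n
  have h2 := chD_nn hh n
  have h3 : 0 ≤ (h ^ 2 - 1) * chD h n := mul_nonneg (by nlinarith) h2
  have h4 := chR_mul hh hn
  have h5 := chS_pos hh hn
  have h6 : h * chS h n ≤ (n * chR h n) * chS h n := by
    rw [mul_assoc, h4]; linarith
  exact le_of_mul_le_mul_right h6 h5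

/-- the main inequality -/
theorem chD_main {h : ℝ} (hh : 1 ≤ h) {n : ℕ} (hn : 2 ≤ n) :
    chS h n ^ 3 ≤ 4 * chD h n * chC h n ^ 2 := by
  induction n, hn using Nat.le_induction with
  | base =>
    rw [chS_two, chC_two, chD_two]
    have h1 : h ^ 3 ≤ (2 * h ^ 2 - 1) ^ 2 := by
      nlinarith [mul_nonneg (sub_nonneg.2 hh) (sub_nonneg.2 hh), pow_pos (by linarith : 0 < h) 3,
        mul_nonneg (sub_nonneg.2 hh) (pow_pos (by linarith : 0 < h) 3).le,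
        mul_nonneg (sub_nonneg.2 hh) (pow_pos (by linarith : 0 < h) 2).le]
    nlinarith
  | succ n hn ih =>
    have hn1 : 1 ≤ n := by omega
    have hS := chS_pos hh hn1
    have hr := chR_pos hh hn1
    have hrh := chR_le hh hn1
    have hrn := chR_n hh hn1
    have hm := chR_mul hh hn1
    set S := chS h n with hSd
    set r := chR h n with hrd
    set D := chD h n with hDd
    have hC : chC h n = r * S := hm.symm
    rw [hC] at ih
    have ih2 : S ≤ 4 * D * r ^ 2 := by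
      have : S * S ^ 2 ≤ (4 * D * r ^ 2) * S ^ 2 := by nlinarith
      exact le_of_mul_le_mul_right this (by positivity)
    rw [chS_succ, chC_succ, chD_succ, hC]
    have e1 : (r * S + h * S) ^ 3 = (r + h) ^ 3 * S ^ 3 := by ring
    have e2 : 4 * (((n : ℝ) + 1) * S + h * D) * (h * (r * S) + (h ^ 2 - 1) * S) ^ 2 =
        (4 * ((n : ℝ) + 1) * S + 4 * h * D) * (h * r + (h ^ 2 - 1)) ^ 2 * S ^ 2 := by ring
    rw [e1, e2]
    have h0 : 0 ≤ h ^ 2 - 1 := by nlinarith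
    have f1 : (h * r) ^ 2 ≤ (h * r + (h ^ 2 - 1)) ^ 2 :=
      pow_le_pow_left₀ (by positivity) (by linarith) 2
    have hD0 : 0 ≤ D := chD_nn hh n
    have f2 : (4 * ((n : ℝ) + 1) * S + 4 * h * D) * (h * r) ^ 2 ≤
        (4 * ((n : ℝ) + 1) * S + 4 * h * D) * (h * r + (h ^ 2 - 1)) ^ 2 :=
      mul_le_mul_of_nonneg_left f1 (by positivity)
    have f3 : (4 * (h * r) + 4 * r ^ 2 + h) * h ^ 2 * S ≤
        (4 * ((n : ℝ) + 1) * S + 4 * h * D) * (h * r) ^ 2 := by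
      have a1 : h * S * h ^ 2 ≤ 4 * h * D * (h * r) ^ 2 := by
        have : h * S * h ^ 2 ≤ h * (4 * D * r ^ 2) * h ^ 2 :=
          mul_le_mul_of_nonneg_right (mul_le_mul_of_nonneg_left ih2 (by linarith)) (by positivity)
        calc _ ≤ _ := this
          _ = _ := by ring
      have a2 : (4 * (h * r) + 4 * r ^ 2) * h ^ 2 * S ≤ 4 * ((n : ℝ) + 1) * S * (h * r) ^ 2 := by
        have : h * (r * h ^ 2 * S) ≤ (n * r) * (r * h ^ 2 * S) :=
          mul_le_mul_of_nonneg_right hrn (by positivity)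
        nlinarith
      nlinarith
    have f4 : (r + h) ^ 3 ≤ (4 * (h * r) + 4 * r ^ 2 + h) * h ^ 2 := by
      have b1 : r ^ 3 ≤ r * h ^ 2 := by
        have : r ^ 2 ≤ h ^ 2 := pow_le_pow_left₀ hr.le hrh 2
        nlinarith
      have b2 : r * h ^ 2 ≤ r * (4 * h ^ 3 - 3 * h ^ 2) := by
        apply mul_le_mul_of_nonneg_left _ hr.le
        nlinarith [pow_pos (by linarith : 0 < h) 2]
      have b3 : 0 ≤ r ^ 2 * (4 * h ^ 2 - 3 * h) := by
        apply mul_nonneg (by positivity)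
        nlinarith
      nlinarith
    calc (r + h) ^ 3 * S ^ 3 ≤ ((4 * (h * r) + 4 * r ^ 2 + h) * h ^ 2) * S ^ 3 :=
          mul_le_mul_of_nonneg_right f4 (by positivity)
      _ = ((4 * (h * r) + 4 * r ^ 2 + h) * h ^ 2 * S) * S ^ 2 := by ring
      _ ≤ ((4 * ((n : ℝ) + 1) * S + 4 * h * D) * (h * r + (h ^ 2 - 1)) ^ 2) * S ^ 2 :=
          mul_le_mul_of_nonneg_right (f3.trans f2) (by positivity)
      _ = _ := by ring

/-- `D_n r_n² / S_n ≥ 1 / 4` for `n ≥ 2` -/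
theorem chD_ge {h : ℝ} (hh : 1 ≤ h) {n : ℕ} (hn : 2 ≤ n) :
    1 / 4 ≤ chD h n / chS h n * chR h n ^ 2 := by
  have h1 := chD_main hh hn
  have h2 := chS_pos hh (by omega : 1 ≤ n)
  rw [chR, div_pow, div_mul_div_comm, div_le_div_iff₀ (by norm_num) (by positivity)]
  nlinarith

end Pool.Agent.Helper6.MONO.W2
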