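import Pool.Agent.Helper12.CW.NF2
import Pool.Agent.Helper95.CW.NB0

/-!
Plan W (MP_c75db0), star frame: runs of a rotation, rows NB1 (the block of a run and its derivative
in terms of the spectral data) and NB3 (all long runs from two families of tests).
-/

set_option autoImplicit false
noncomputable section
namespace Pool.Agent.Helper6.MONO.W2

open Matrix

/-! ### powers from the spectral data -/

/-- the sum of the `B ^ i * Bd * B ^ (n - 1 - i)` -/
def dP (B Bd : Mt) : ℕ → Mt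
  | 0 => 0
  | n + 1 => dP B Bd n * B + B ^ n * Bd

/-- the relations between the spectral data of `B` and of its derivative `Bd` -/
structure SPC (B Bd : Mt) (μ ν : ℂ) (th ps h hd : ℝ) (P N Pd Nd : Mt) : Prop where
  pp : P * P = P
  np : N * P = N
  pn : P * N = N
  nn : N * N = ((h ^ 2 - 1 : ℝ) : ℂ) • P
  dpp : Pd * P + P * Pd = Pd
  dnp : Nd * P + N * Pd = Nd
  dpn : Pd * N + P * Nd = Nd
  dnn : Nd * N + N * Nd = ((2 * h * hd : ℝ) : ℂ) • P + ((h ^ 2 - 1 : ℝ) : ℂ) • Pd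
  b : B = μ • (N + (h : ℂ) • P) + ν • (1 - P)
  bd : Bd = (Complex.I * th * μ) • (N + (h : ℂ) • P) + μ • (Nd + (hd : ℂ) • P + (h : ℂ) • Pd) +
    (Complex.I * ps * ν) • (1 - P) - ν • Pd

section
variable {B Bd : Mt} {μ ν : ℂ} {th ps h hd : ℝ} {P N Pd Nd : Mt}

theorem SPC.pow (H : SPC B Bd μ ν th ps h hd P N Pd Nd) (n : ℕ) :
    B ^ n = μ ^ n • ((chS h n : ℂ) • N + (chC h n : ℂ) • P) + ν ^ n • (1 - P) := by
  induction n with
  | zero => simp [chS_zero, chC_zero]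
  | succ n ih =>
    rw [pow_succ, ih]
    nth_rewrite 1 [H.b]
    simp only [mul_add, add_mul, mul_sub, sub_mul, smul_mul_assoc, mul_smul_comm, smul_add,
      smul_sub, smul_smul, one_mul, mul_one, H.pp, H.np, H.pn, H.nn, chS_succ, chC_succ]
    push_cast
    module

theorem SPC.dpow (H : SPC B Bd μ ν th ps h hd P N Pd Nd) (n : ℕ) :
    dP B Bd n = (n * μ ^ n * (Complex.I * th)) • ((chS h n : ℂ) • N + (chC h n : ℂ) • P) +
      μ ^ n • (((hd * chD h n : ℝ) : ℂ) • N + ((hd * (n * chS h n) : ℝ) : ℂ) • P +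
        (chS h n : ℂ) • Nd + (chC h n : ℂ) • Pd) +
      (n * ν ^ n * (Complex.I * ps)) • (1 - P) - ν ^ n • Pd := by
  induction n with
  | zero => simp [dP, chS_zero, chC_zero, chD_zero]
  | succ n ih =>
    have e1 : Pd * P = Pd - P * Pd := eq_sub_of_add_eq H.dpp
    have e2 : Nd * P = Nd - N * Pd := eq_sub_of_add_eq H.dnp
    have e3 : Pd * N = Nd - P * Nd := eq_sub_of_add_eq H.dpn
    have e4 : Nd * N = ((2 * h * hd : ℝ) : ℂ) • P + ((h ^ 2 - 1 : ℝ) : ℂ) • Pd - N * Nd :=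
      eq_sub_of_add_eq H.dnn
    have k : ((h : ℂ) ^ 2 - 1) * (chD h n : ℂ) = n * (chC h n : ℂ) - h * (chS h n : ℂ) := by
      exact_mod_cast chD_eq h n
    rw [dP, ih, H.pow n]
    nth_rewrite 1 [H.b]
    rw [H.bd]
    simp only [mul_add, add_mul, mul_sub, sub_mul, smul_mul_assoc, mul_smul_comm, smul_add,
      smul_sub, smul_smul, one_mul, mul_one, H.pp, H.np, H.pn, H.nn, e1, e2, e3, e4, chS_succ,
      chC_succ, chD_succ]
    push_cast
    match_scalars <;> first | ring1 | linear_combination (μ ^ (n + 1) * hd) * k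

/-- `ρ_n = (ν / μ)^n / S_n` -/
def chQ (μ ν : ℂ) (h : ℝ) (n : ℕ) : ℂ := (ν / μ) ^ n / chS h n

/-- the normalised matrix of a run, `B ^ n = μ ^ n S_n • rT` -/
def rT (r : ℝ) (ρ : ℂ) (P N : Mt) : Mt := N + (r : ℂ) • P + ρ • (1 - P)

/-- the direction of the first test -/
def rX (om : ℝ) (P N : Mt) : Mt := N + (om : ℂ) • P

/-- the remaining part of the derivative; `dh = ps - th`, `η = n ρ` -/
def rY (r h hd dh : ℝ) (ρ η : ℂ) (P Pd Nd : Mt) : Mt :=
  ((h * hd / r : ℝ) : ℂ) • P + Nd + ((r : ℂ) - ρ) • Pd + (Complex.I * dh * η) • (1 - P)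

theorem SPC.powT (H : SPC B Bd μ ν th ps h hd P N Pd Nd) (hμ : μ ≠ 0) (hh : 1 ≤ h) {n : ℕ}
    (hn : 1 ≤ n) : B ^ n = (μ ^ n * chS h n) • rT (chR h n) (chQ μ ν h n) P N := by
  have h1 : (chS h n : ℂ) ≠ 0 := by exact_mod_cast (chS_pos hh hn).ne'
  have h2 : (chR h n : ℂ) * chS h n = chC h n := by exact_mod_cast chR_mul hh hn
  have h3 : μ ^ n * chS h n * chQ μ ν h n = ν ^ n := by
    rw [chQ, div_pow]
    field_simp
  rw [H.pow n, rT, ← h2, ← h3]
  module

theorem SPC.dpowT (H : SPC B Bd μ ν th ps h hd P N Pd Nd) (hμ : μ ≠ 0) (hh : 1 ≤ h) {n : ℕ}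
    (hn : 1 ≤ n) : dP B Bd n = (μ ^ n * chS h n) •
      ((n * (Complex.I * th)) • rT (chR h n) (chQ μ ν h n) P N +
        ((hd * chD h n / chS h n : ℝ) : ℂ) • rX (chO h n) P N +
        rY (chR h n) h hd (ps - th) (chQ μ ν h n) (n * chQ μ ν h n) P Pd Nd) := by
  have h1 : (chS h n : ℂ) ≠ 0 := by exact_mod_cast (chS_pos hh hn).ne'
  have h2 : (chR h n : ℂ) * chS h n = chC h n := by exact_mod_cast chR_mul hh hn
  have h3 : μ ^ n * chS h n * chQ μ ν h n = ν ^ n := by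
    rw [chQ, div_pow]
    field_simp
  have h4 : (chR h n : ℂ) ≠ 0 := by exact_mod_cast (chR_pos hh hn).ne'
  have h5 : ((hd * chD h n / chS h n : ℝ) : ℂ) * chS h n = ((hd * chD h n : ℝ) : ℂ) := by
    push_cast
    field_simp
  have h6 : ((hd * chD h n / chS h n : ℝ) : ℂ) * chO h n + ((h * hd / chR h n : ℝ) : ℂ) =
      hd * n := by
    have k := chD_eq h n
    have a1 := (chS_pos hh hn).ne'
    have a2 := (chR_pos hh hn).ne'
    have a3 := chR_mul hh hn
    have : hd * chD h n / chS h n * chO h n + h * hd / chR h n = hd * n := by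
      rw [chO]
      field_simp
      linear_combination hd * k - hd * n * a3
    exact_mod_cast this
  have h7 : ((hd * (n * chS h n) : ℝ) : ℂ) = (((hd * chD h n / chS h n : ℝ) : ℂ) * chO h n +
      ((h * hd / chR h n : ℝ) : ℂ)) * chS h n := by
    rw [h6]; push_cast; ring
  rw [H.dpow n, rT, rX, rY, ← h2, ← h3, ← h5, h7]
  push_cast
  module

end

/-! ### the blocks of the star frame -/

theorem chS_Us (h : ℝ) (n : ℕ) : chS h n = Us (2 * h) n := by
  have key : ∀ n, chS h n = Us (2 * h) n ∧ chS h (n + 1) = Us (2 * h) (n + 1) := by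
    intro n
    induction n with
    | zero => exact ⟨rfl, by rw [chS_one]; rfl⟩
    | succ n ih =>
      refine ⟨ih.2, ?_⟩
      show chS h (n + 1 + 1) = 2 * h * Us (2 * h) (n + 1) - Us (2 * h) n
      rw [← ih.1, ← ih.2, chS_succ, chC_succ, chS_succ]
      ring
  exact (key n).1

/-- the block of a run, multiplied by the letter `2` -/
theorem rfJ_nM (φ : ℝ) (v : V3) (a : Bool) (k m : ℕ) :
    rfJ 1 v * nM φ v a k m = (rfJ 1 v * sDm φ a k) ^ (m + 1) := by
  induction m with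
  | zero => rw [zero_add, pow_one]; rfl
  | succ m ih =>
    rw [pow_succ, ← ih]
    show rfJ 1 v * (nM φ v a k m * (rfJ 1 v * sDm φ a k)) = _
    rw [mul_assoc]

/-- the derivative of the block of a run -/
theorem rfJ_nMd (φ : ℝ) (v vd : V3) (a : Bool) (k m : ℕ) :
    rfd 1 0 v vd * nM φ v a k m + rfJ 1 v * nMd φ v vd a k m =
      dP (rfJ 1 v * sDm φ a k) (rfd 1 0 v vd * sDm φ a k) (m + 1) := by
  induction m with
  | zero =>
    show rfd 1 0 v vd * sDm φ a k + rfJ 1 v * 0 = 0 * _ + 1 * _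
    simp
  | succ m ih =>
    show rfd 1 0 v vd * (nM φ v a k m * (rfJ 1 v * sDm φ a k)) + rfJ 1 v *
      (nMd φ v vd a k m * (rfJ 1 v * sDm φ a k) + nM φ v a k m * (rfd 1 0 v vd * sDm φ a k)) =
      dP _ _ (m + 1) * _ + _ ^ (m + 1) * _
    rw [← ih, ← rfJ_nM]
    noncomm_ring

/-- the gauge terms -/
def rG (v vd : V3) (S0 S1 T : Mt) : Mt :=
  (1 / 2 : ℂ) • (nG v vd * T - T * nG v vd) + T * S0 * rfJ 1 v - S1 * rfJ 1 v * T

theorem rG_smul (v vd : V3) (S0 S1 T : Mt) (z : ℂ) :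
    rG v vd S0 S1 (z • T) = z • rG v vd S0 S1 T := by
  rw [rG, rG]
  simp only [smul_mul_assoc, mul_smul_comm, smul_sub, smul_add]
  module

theorem rfJ_nX {v vd : V3} (h : brJ 1 v v = 2) (h' : (brJ 1 vd v).re = 0) (M D S0 S1 : Mt) :
    rfJ 1 v * nX v vd M D S0 S1 = (rfd 1 0 v vd * M + rfJ 1 v * D) +
      rG v vd S0 S1 (rfJ 1 v * M) := by
  have c2 := rfJ_sqM h
  have cd := rfd_anti h h'
  have k1 : rfJ 1 v * nG v vd = rfd 1 0 v vd := by rw [nG, ← mul_assoc, c2, one_mul]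
  have k2 : nG v vd * (rfJ 1 v * M) = -(rfd 1 0 v vd * M) := by
    rw [nG, mul_assoc, ← mul_assoc (rfd 1 0 v vd), cd, neg_mul, mul_neg, ← mul_assoc, ← mul_assoc,
      c2, one_mul]
  have k3 : rfJ 1 v * (nG v vd * M) = rfd 1 0 v vd * M := by rw [← mul_assoc, k1]
  have k4 : rfJ 1 v * (rfJ 1 v * S1 * M) = S1 * M := by
    rw [← mul_assoc, ← mul_assoc, c2, one_mul]
  have k5 : S1 * rfJ 1 v * (rfJ 1 v * M) = S1 * M := by
    rw [mul_assoc, ← mul_assoc (rfJ 1 v), c2, one_mul]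
  rw [nX, rG, k2, k5, mul_sub, mul_add, mul_add, mul_smul_comm, mul_sub, k3, k4]
  simp only [← mul_assoc]
  module

end Pool.Agent.Helper6.MONO.W2
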