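import Pool.Agent.Helper95.CW.NB1

/-!
Plan W (MP_c75db0), star frame, row NB3: the conditions `inn` and `gi` of the certificate for all
long runs of a rotation from families of tests with three compact parameters.
-/

set_option autoImplicit false
noncomputable section
namespace Pool.Agent.Helper6.MONO.W2

open Matrix

/-- the ranges of the data of the runs with `n ≥ n0` -/
structure RFam (h : ℝ) (n0 : ℕ) (r om : ℝ) (ρ η : ℂ) : Prop where
  r0 : 0 < r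
  r1 : r ≤ chR h n0
  rq : r ^ 2 = (h ^ 2 - 1) + ‖ρ‖ ^ 2
  o0 : 0 ≤ om
  o1 : om ≤ r
  oq : om * r = h ^ 2 - 1
  q1 : n0 * ‖ρ‖ ≤ 1
  q2 : ‖ρ‖ ≤ r
  e0 : n0 * ‖ρ‖ ≤ ‖η‖
  e1 : ‖η‖ ≤ 1

theorem chQ_norm {μ ν : ℂ} (hμ : ‖μ‖ = 1) (hν : ‖ν‖ = 1) {h : ℝ} (hh : 1 ≤ h) {n : ℕ}
    (hn : 1 ≤ n) : ‖chQ μ ν h n‖ = 1 / chS h n := by
  rw [chQ, norm_div, norm_pow, norm_div, hμ, hν, div_one, one_pow, Complex.norm_real,
    Real.norm_of_nonneg (chS_pos hh hn).le]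

theorem chQ_fam {μ ν : ℂ} (hμ : ‖μ‖ = 1) (hν : ‖ν‖ = 1) {h : ℝ} (hh : 1 ≤ h) {n0 n : ℕ}
    (h0 : 1 ≤ n0) (hn : n0 ≤ n) :
    RFam h n0 (chR h n) (chO h n) (chQ μ ν h n) (n * chQ μ ν h n) := by
  have hn1 : 1 ≤ n := h0.trans hn
  have hS := chS_pos hh hn1
  have hq := chQ_norm hμ hν hh hn1
  have hge := chS_ge hh n
  have hc : (n0 : ℝ) ≤ n := by exact_mod_cast hn
  have hne : ‖((n : ℂ) * chQ μ ν h n)‖ = n * (1 / chS h n) := by
    rw [norm_mul, hq, Complex.norm_natCast]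
  refine ⟨chR_pos hh hn1, chR_anti hh h0 hn, ?_, chO_nn hh hn1, chO_le hh hn1, chO_mul hh hn1,
    ?_, ?_, ?_, ?_⟩
  · rw [hq, chR_sq hh hn1, div_pow, one_pow]
  · rw [hq, mul_one_div, div_le_one hS]; linarith
  · rw [hq, chR]
    exact div_le_div_of_nonneg_right (chC_ge hh n) hS.le
  · rw [hne, hq]
    exact mul_le_mul_of_nonneg_right hc (by positivity)
  · rw [hne, mul_one_div, div_le_one hS]; exact hge

/-! ### operations on tests -/

theorem NT.congr {K1 K2 X X' M M' : Mt} (h : NT K1 K2 X M) (hX : X' = X) (hM : M' = M) :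
    NT K1 K2 X' M' := by rw [hX, hM]; exact h

theorem NT.add {K1 K2 X Y M : Mt} (h : NT K1 K2 X M) (h' : NT K1 K2 Y M) :
    NT K1 K2 (X + Y) M := by
  intro u hu y hy
  have a := h u hu y hy
  have b := h' u hu y hy
  rw [Matrix.add_mulVec, brJ_add_left, add_mul, Complex.add_re]
  exact add_nonneg a b

theorem NT.smulr {K1 K2 X M : Mt} (h : NT K1 K2 X M) {s : ℝ} (hs : 0 ≤ s) :
    NT K1 K2 ((s : ℂ) • X) M := by
  intro u hu y hy
  have a := h u hu y hy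
  rw [Matrix.smul_mulVec, brJ_smul_left, mul_assoc, Complex.re_ofReal_mul]
  exact mul_nonneg hs a

/-- division by a positive number -/
theorem NT.of_smulr {K1 K2 X M : Mt} {s : ℝ} (hs : 0 < s) (h : NT K1 K2 ((s : ℂ) • X) M) :
    NT K1 K2 X M := by
  have h1 := h.smulr (inv_nonneg.2 hs.le)
  refine h1.congr ?_ rfl
  rw [smul_smul, ← Complex.ofReal_mul, inv_mul_cancel₀ hs.ne', Complex.ofReal_one, one_smul]

/-- a common complex factor -/
theorem NT.smulc {K1 K2 X M : Mt} (h : NT K1 K2 X M) (z : ℂ) : NT K1 K2 (z • X) (z • M) := by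
  intro u hu y hy
  have a := h u hu y hy
  rw [Matrix.smul_mulVec, Matrix.smul_mulVec, brJ_smul_left, brJ_smul_left, star_mul']
  have e : z * brJ 1 (X.mulVec u) y * (star z * star (brJ 1 (M.mulVec u) y)) =
      ((Complex.normSq z : ℝ) : ℂ) * (brJ 1 (X.mulVec u) y * star (brJ 1 (M.mulVec u) y)) := by
    rw [Complex.normSq_eq_conj_mul_self]
    simp only [Complex.star_def]
    ring
  rw [e, Complex.re_ofReal_mul]
  exact mul_nonneg (Complex.normSq_nonneg z) a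

/-- an imaginary multiple of the matrix -/
theorem NT_imag (K1 K2 M : Mt) (t : ℝ) : NT K1 K2 ((Complex.I * t) • M) M := by
  intro u hu y hy
  rw [Matrix.smul_mulVec, brJ_smul_left]
  have e : Complex.I * t * brJ 1 (M.mulVec u) y * star (brJ 1 (M.mulVec u) y) =
      Complex.I * ((t * Complex.normSq (brJ 1 (M.mulVec u) y) : ℝ) : ℂ) := by
    rw [Complex.ofReal_mul, Complex.normSq_eq_conj_mul_self]
    simp only [Complex.star_def]
    ring
  rw [e]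
  simp

theorem hr_smul (K : Mt) (z : ℂ) (u : V3) : hr K (z • u) = Complex.normSq z * hr K u := by
  have e : hv K (z • u) = ((Complex.normSq z : ℝ) : ℂ) * hv K u := by
    rw [Complex.normSq_eq_conj_mul_self]
    simp only [hv, Fin.sum_univ_three, Pi.smul_apply, smul_eq_mul, star_mul', Complex.star_def]
    ring
  rw [hr, e, Complex.re_ofReal_mul, hr]

/-- the second direction, `r²` times the remaining part -/
def rZ (r h hd dh : ℝ) (ρ η : ℂ) (P Pd Nd : Mt) : Mt :=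
  ((r * h * hd : ℝ) : ℂ) • P +
    ((r ^ 2 : ℝ) : ℂ) • (Nd + ((r : ℂ) - ρ) • Pd + (Complex.I * dh * η) • (1 - P))

section
variable {φ : ℝ} {v vd : V3} {a : Bool} {k : ℕ} {μ ν : ℂ} {th ps h hd : ℝ} {P N Pd Nd : Mt}
  {K1 K2 K3 S0 S1 : Mt}

/-- THE TEST OF ALL LONG RUNS from two families -/
theorem SPC.gi (H : SPC (rfJ 1 v * sDm φ a k) (rfd 1 0 v vd * sDm φ a k) μ ν th ps h hd P N Pd Nd)
    (hv : brJ 1 v v = 2) (hvd : (brJ 1 vd v).re = 0) (hμ : ‖μ‖ = 1) (hν : ‖ν‖ = 1) (hh : 1 ≤ h)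
    (hd0 : 0 ≤ hd) {n0 : ℕ} (h0 : 2 ≤ n0)
    (fA : ∀ r om ρ η, RFam h n0 r om ρ η →
      NT K1 K2 (rfJ 1 v * rX om P N) (rfJ 1 v * rT r ρ P N))
    (fB : ∀ r om ρ η, RFam h n0 r om ρ η →
      NT K1 K2 (rfJ 1 v * (((hd / 4 : ℝ) : ℂ) • rX om P N + rZ r h hd (ps - th) ρ η P Pd Nd +
        ((r ^ 2 : ℝ) : ℂ) • rG v vd S0 S1 (rT r ρ P N))) (rfJ 1 v * rT r ρ P N))
    {n : ℕ} (hn : n0 ≤ n) :
    NT K1 K2 (nX v vd (nM φ v a k (n - 1)) (nMd φ v vd a k (n - 1)) S0 S1)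
      (nM φ v a k (n - 1)) := by
  have hn1 : 1 ≤ n := by omega
  have hμ0 : μ ≠ 0 := by intro h; rw [h, norm_zero] at hμ; exact zero_ne_one hμ
  have hf := chQ_fam hμ hν hh (by omega : 1 ≤ n0) hn
  have c2 := rfJ_sqM hv
  have e1 : rfJ 1 v * nM φ v a k (n - 1) = (rfJ 1 v * sDm φ a k) ^ n := by
    rw [rfJ_nM, Nat.sub_add_cancel hn1]
  have e2 : rfd 1 0 v vd * nM φ v a k (n - 1) + rfJ 1 v * nMd φ v vd a k (n - 1) =
      dP (rfJ 1 v * sDm φ a k) (rfd 1 0 v vd * sDm φ a k) n := by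
    rw [rfJ_nMd, Nat.sub_add_cancel hn1]
  have e3 := rfJ_nX hv hvd (nM φ v a k (n - 1)) (nMd φ v vd a k (n - 1)) S0 S1
  rw [e2, e1, H.powT hμ0 hh hn1, rG_smul, H.dpowT hμ0 hh hn1] at e3
  rw [H.powT hμ0 hh hn1] at e1
  have inv : ∀ A B : Mt, rfJ 1 v * A = B → A = rfJ 1 v * B := by
    intro A B h
    rw [← h, ← mul_assoc, c2, one_mul]
  have e4 := inv _ _ e1
  have e5 := inv _ _ e3
  set z : ℂ := μ ^ n * chS h n with hz
  set r := chR h n with hr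
  set om := chO h n with hom
  set ρ := chQ μ ν h n with hρ
  have hr0 : 0 < r := hf.r0
  have hA := fA r om ρ _ hf
  have hB := fB r om ρ _ hf
  have hs : hd / 4 ≤ hd * chD h n / chS h n * r ^ 2 := by
    have := mul_le_mul_of_nonneg_left (chD_ge hh (h0.trans hn)) hd0
    calc hd / 4 = hd * (1 / 4) := by ring
      _ ≤ _ := this
      _ = _ := by ring
  have key : NT K1 K2 (rfJ 1 v * ((n * (Complex.I * th)) • rT r ρ P N +
      ((hd * chD h n / chS h n : ℝ) : ℂ) • rX om P N + rY r h hd (ps - th) ρ (n * ρ) P Pd Nd +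
      rG v vd S0 S1 (rT r ρ P N))) (rfJ 1 v * rT r ρ P N) := by
    have h1 := NT_imag K1 K2 (rfJ 1 v * rT r ρ P N) (r ^ 2 * (n * th))
    have h2 := hA.smulr (sub_nonneg.2 hs)
    have h3 := (h1.add h2).add hB
    refine NT.of_smulr (pow_pos hr0 2) (h3.congr ?_ rfl)
    have e6 : ((r ^ 2 : ℝ) : ℂ) * ((h * hd / r : ℝ) : ℂ) = ((r * h * hd : ℝ) : ℂ) := by
      rw [← Complex.ofReal_mul]
      congr 1
      field_simp
    rw [rZ, rY, ← e6]
    simp only [mul_add, mul_sub, mul_smul_comm, smul_add, smul_smul, smul_sub]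
    push_cast
    module
  refine (key.smulc z).congr ?_ ?_
  · rw [e5, ← mul_smul_comm, ← smul_add]
  · rw [e4, mul_smul_comm]

/-- THE INCLUSION FOR ALL LONG RUNS from one family -/
theorem SPC.inn (H : SPC (rfJ 1 v * sDm φ a k) (rfd 1 0 v vd * sDm φ a k) μ ν th ps h hd P N Pd Nd)
    (hμ : ‖μ‖ = 1) (hν : ‖ν‖ = 1) (hh : 1 ≤ h) {n0 : ℕ} (h0 : 1 ≤ n0)
    (fC : ∀ r om ρ η, RFam h n0 r om ρ η → ∀ u ∈ NZ K1, 0 ≤ hr K3 ((rT r ρ P N).mulVec u))
    {n : ℕ} (hn : n0 ≤ n) :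
    ∀ u ∈ NZ K1, 0 ≤ hr K3 ((rfJ 1 v).mulVec ((nM φ v a k (n - 1)).mulVec u)) := by
  intro u hu
  have hn1 : 1 ≤ n := by omega
  have hμ0 : μ ≠ 0 := by intro h; rw [h, norm_zero] at hμ; exact zero_ne_one hμ
  have hf := chQ_fam hμ hν hh h0 hn
  rw [Matrix.mulVec_mulVec, rfJ_nM, Nat.sub_add_cancel hn1, H.powT hμ0 hh hn1,
    Matrix.smul_mulVec, hr_smul]
  exact mul_nonneg (Complex.normSq_nonneg _) (fC _ _ _ _ hf u hu)

end

end Pool.Agent.Helper6.MONO.W2
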