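import Mathlib

/-!
Spectral data of a 3x3 matrix over a commutative ring with
`B³ = (2 h μ - μ⁻²) B² + (2 h μ⁻¹ - μ²) B - 1`, and dual numbers (MP_c75db0, row NB4).
-/

set_option autoImplicit false
noncomputable section
namespace Pool.Agent.Helper6.MONO.W2

open Matrix

section ring
variable {R : Type} [CommRing R]

abbrev M3 (R : Type) : Type := Matrix (Fin 3) (Fin 3) R

def k1 (M : M3 R) : R := M 0 0 + M 1 1 + M 2 2
def k2 (M : M3 R) : R := (M 0 0 * M 1 1 - M 0 1 * M 1 0) + (M 0 0 * M 2 2 - M 0 2 * M 2 0) +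
  (M 1 1 * M 2 2 - M 1 2 * M 2 1)
def k3 (M : M3 R) : R := M 0 0 * (M 1 1 * M 2 2 - M 1 2 * M 2 1) -
  M 0 1 * (M 1 0 * M 2 2 - M 1 2 * M 2 0) + M 0 2 * (M 1 0 * M 2 1 - M 1 1 * M 2 0)

theorem ch3 (M : M3 R) : M * M * M = k1 M • (M * M) - k2 M • M + k3 M • (1 : M3 R) := by
  ext i j
  fin_cases i <;> fin_cases j <;>
    simp [Matrix.mul_apply, Fin.sum_univ_three, k1, k2, k3] <;> ring

variable (B : M3 R) (μ μi h gi : R)

/-- the projection -/
def eE : M3 R := gi • (μ • (B * B) - (2 * h * μ ^ 2) • B + μ ^ 3 • (1 : M3 R))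

/-- the part `N` -/
def eN : M3 R := μi • B - h • (1 : M3 R) + (h + μi ^ 3) • eE B μ h gi

variable {B μ μi h gi}

theorem eE_left (hμ : μ * μi = 1)
    (hB : B * B * B = (2 * h * μ - μi ^ 2) • (B * B) + (2 * h * μi - μ ^ 2) • B - 1) :
    B * eE B μ h gi = (-(μi ^ 2)) • eE B μ h gi := by
  have e1 : μ * μi ^ 2 = μi := by linear_combination μi * hμ
  have e2 : μ ^ 2 * μi ^ 2 = 1 := by linear_combination (μ * μi + 1) * hμ
  have e3 : μ ^ 3 * μi ^ 2 = μ := by linear_combination (μ ^ 2 * μi + μ) * hμ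
  rw [eE, mul_smul_comm, smul_comm]
  congr 1
  rw [mul_add, mul_sub, mul_smul_comm, mul_smul_comm, mul_smul_comm, mul_one, ← mul_assoc, hB]
  match_scalars
  · linear_combination (-1 : R) * e1 + e1
  · linear_combination (2 * h : R) * hμ - 2 * h * e2
  · linear_combination e3

theorem eE_right (hμ : μ * μi = 1)
    (hB : B * B * B = (2 * h * μ - μi ^ 2) • (B * B) + (2 * h * μi - μ ^ 2) • B - 1) :
    eE B μ h gi * B = (-(μi ^ 2)) • eE B μ h gi := by
  rw [← eE_left hμ hB, eE]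
  simp only [mul_add, mul_sub, add_mul, sub_mul, mul_smul_comm, smul_mul_assoc, mul_one, one_mul,
    mul_assoc]

theorem eE_sq (hμ : μ * μi = 1) (hg : gi * (μ ^ 3 + μi ^ 3 + 2 * h) = 1)
    (hB : B * B * B = (2 * h * μ - μi ^ 2) • (B * B) + (2 * h * μi - μ ^ 2) • B - 1) :
    eE B μ h gi * eE B μ h gi = eE B μ h gi := by
  have e0 := eE_left (gi := gi) hμ hB
  have e1 : B * B * eE B μ h gi = (μi ^ 4) • eE B μ h gi := by
    rw [mul_assoc, e0, mul_smul_comm, e0, smul_smul]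
    congr 1
    ring
  nth_rewrite 1 [eE]
  rw [smul_mul_assoc, add_mul, sub_mul, smul_mul_assoc, smul_mul_assoc, smul_mul_assoc, one_mul,
    e0, e1]
  match_scalars
  linear_combination hg + (gi * (μi ^ 3 + 2 * h * (μ * μi + 1))) * hμ

theorem eNE (hμ : μ * μi = 1) (hg : gi * (μ ^ 3 + μi ^ 3 + 2 * h) = 1)
    (hB : B * B * B = (2 * h * μ - μi ^ 2) • (B * B) + (2 * h * μi - μ ^ 2) • B - 1) :
    eN B μ μi h gi * eE B μ h gi = 0 := by
  rw [eN, add_mul, sub_mul, smul_mul_assoc, smul_mul_assoc, smul_mul_assoc, one_mul,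
    eE_left hμ hB, eE_sq hμ hg hB]
  match_scalars
  ring

theorem eEN (hμ : μ * μi = 1) (hg : gi * (μ ^ 3 + μi ^ 3 + 2 * h) = 1)
    (hB : B * B * B = (2 * h * μ - μi ^ 2) • (B * B) + (2 * h * μi - μ ^ 2) • B - 1) :
    eE B μ h gi * eN B μ μi h gi = 0 := by
  rw [eN, mul_add, mul_sub, mul_smul_comm, mul_smul_comm, mul_smul_comm, mul_one,
    eE_right hμ hB, eE_sq hμ hg hB]
  match_scalars
  ring

theorem eNN (hμ : μ * μi = 1) (hg : gi * (μ ^ 3 + μi ^ 3 + 2 * h) = 1)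
    (hB : B * B * B = (2 * h * μ - μi ^ 2) • (B * B) + (2 * h * μi - μ ^ 2) • B - 1) :
    eN B μ μi h gi * eN B μ μi h gi = (h ^ 2 - 1) • (1 - eE B μ h gi) := by
  have e0 := eNE hμ hg hB
  have e1 : (μ ^ 3 + μi ^ 3 + 2 * h) • eE B μ h gi =
      μ • (B * B) - (2 * h * μ ^ 2) • B + μ ^ 3 • (1 : M3 R) := by
    rw [eE, smul_smul, mul_comm, hg, one_smul]
  have e2 : eN B μ μi h gi * eN B μ μi h gi =
      μi • (eN B μ μi h gi * B) - h • eN B μ μi h gi := by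
    nth_rewrite 2 [eN]
    rw [mul_add, mul_sub, mul_smul_comm, mul_smul_comm, mul_smul_comm, mul_one, e0, smul_zero,
      add_zero]
  have e3 : eN B μ μi h gi * B = μi • (B * B) - h • B + (h + μi ^ 3) • (-(μi ^ 2)) • eE B μ h gi := by
    rw [eN, add_mul, sub_mul, smul_mul_assoc, smul_mul_assoc, smul_mul_assoc, one_mul,
      eE_right hμ hB]
  have e4 : μi ^ 2 • (B * B) - (2 * h * μi) • B + (1 : M3 R) =
      (μi ^ 3 * (μ ^ 3 + μi ^ 3 + 2 * h)) • eE B μ h gi := by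
    rw [mul_smul (μi ^ 3) _ (eE B μ h gi), e1]
    match_scalars
    · linear_combination (-(μi ^ 2)) * hμ
    · linear_combination (2 * h * μi * (μ * μi + 1)) * hμ
    · linear_combination (-(μ ^ 2 * μi ^ 2 + μ * μi + 1)) * hμ
  have e5 : μi • (eN B μ μi h gi * B) - h • eN B μ μi h gi =
      (μi ^ 2 • (B * B) - (2 * h * μi) • B + (1 : M3 R)) + (h ^ 2 - 1) • (1 : M3 R) -
      ((h + μi ^ 3) ^ 2) • eE B μ h gi := by
    rw [e3, eN]
    module
  rw [e2, e5, e4]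
  match_scalars
  · linear_combination (μi ^ 2 * μ ^ 2 + μi * μ + 1) * hμ
  · ring

theorem eB (hμ : μ * μi = 1) :
    B = μ • (eN B μ μi h gi + h • (1 - eE B μ h gi)) + (-(μi ^ 2)) • eE B μ h gi := by
  rw [eN]
  match_scalars
  · linear_combination (-1 : R) * hμ
  · ring
  · linear_combination (-(μi ^ 2)) * hμ

end ring
end Pool.Agent.Helper6.MONO.W2
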