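import Pool.Agent.Helper95.CW.NB4A
import Pool.Agent.Helper95.CW.NB1

/-!
Plan W (MP_c75db0), star frame, row NB4: the spectral data of `B = c S`, `S` a rotation of the
star, and their derivatives.
-/

set_option autoImplicit false
noncomputable section
namespace Pool.Agent.Helper6.MONO.W2

open Matrix

/-! ### dual numbers -/

abbrev Dn : Type := DualNumber ℂ

def dn (a b : ℂ) : Dn := TrivSqZeroExt.inl a + TrivSqZeroExt.inr b

@[simp] theorem dn_fst (a b : ℂ) : (dn a b).fst = a := by simp [dn]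
@[simp] theorem dn_snd (a b : ℂ) : (dn a b).snd = b := by simp [dn]

theorem dn_inj {a b c d : ℂ} : dn a b = dn c d ↔ a = c ∧ b = d := by
  constructor
  · intro h
    have h1 := congrArg TrivSqZeroExt.fst h
    have h2 := congrArg TrivSqZeroExt.snd h
    simp only [dn_fst, dn_snd] at h1 h2
    exact ⟨h1, h2⟩
  · rintro ⟨rfl, rfl⟩; rfl

theorem dn_add (a b c d : ℂ) : dn a b + dn c d = dn (a + c) (b + d) := by
  apply TrivSqZeroExt.ext <;> simp
theorem dn_sub (a b c d : ℂ) : dn a b - dn c d = dn (a - c) (b - d) := by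
  apply TrivSqZeroExt.ext <;> simp
theorem dn_neg (a b : ℂ) : -dn a b = dn (-a) (-b) := by
  apply TrivSqZeroExt.ext <;> simp
theorem dn_mul (a b c d : ℂ) : dn a b * dn c d = dn (a * c) (a * d + b * c) := by
  apply TrivSqZeroExt.ext <;> simp
theorem dn_one : (1 : Dn) = dn 1 0 := by apply TrivSqZeroExt.ext <;> simp
theorem dn_zero : (0 : Dn) = dn 0 0 := by apply TrivSqZeroExt.ext <;> simp
theorem dn_two : (2 : Dn) = dn 2 0 := by
  have : (2 : Dn) = 1 + 1 := by norm_num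
  rw [this, dn_one, dn_add]
  norm_num

/-- the matrix `A + ε A'` -/
def dm (A A' : Mt) : M3 Dn := Matrix.of fun i j => dn (A i j) (A' i j)

theorem dm_app (A A' : Mt) (i j : Fin 3) : dm A A' i j = dn (A i j) (A' i j) := rfl

theorem dm_inj {A A' B B' : Mt} : dm A A' = dm B B' ↔ A = B ∧ A' = B' := by
  constructor
  · intro h
    have h1 : ∀ i j, A i j = B i j ∧ A' i j = B' i j := fun i j =>
      dn_inj.1 (congrFun (congrFun h i) j)
    exact ⟨by ext i j; exact (h1 i j).1, by ext i j; exact (h1 i j).2⟩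
  · rintro ⟨rfl, rfl⟩; rfl

theorem dm_add (A A' B B' : Mt) : dm A A' + dm B B' = dm (A + B) (A' + B') := by
  refine Matrix.ext fun i j => ?_
  rw [Matrix.add_apply, dm_app, dm_app, dm_app, dn_add]
  rfl
theorem dm_sub (A A' B B' : Mt) : dm A A' - dm B B' = dm (A - B) (A' - B') := by
  refine Matrix.ext fun i j => ?_
  rw [Matrix.sub_apply, dm_app, dm_app, dm_app, dn_sub]
  rfl
theorem dm_smul (s s' : ℂ) (A A' : Mt) : dn s s' • dm A A' = dm (s • A) (s • A' + s' • A) := by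
  refine Matrix.ext fun i j => ?_
  rw [Matrix.smul_apply, dm_app, dm_app, smul_eq_mul, dn_mul]
  rfl
theorem dm_mul (A A' B B' : Mt) : dm A A' * dm B B' = dm (A * B) (A * B' + A' * B) := by
  refine Matrix.ext fun i j => ?_
  rw [Matrix.mul_apply, Fin.sum_univ_three, dm_app]
  simp only [dm_app, dn_mul, dn_add, Matrix.mul_apply, Fin.sum_univ_three, Matrix.add_apply]
  rw [dn_inj]
  constructor <;> ring
theorem dm_one : (1 : M3 Dn) = dm 1 0 := by
  refine Matrix.ext fun i j => ?_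
  rw [dm_app, Matrix.one_apply, Matrix.one_apply]
  split_ifs
  · rw [dn_one]; rfl
  · rw [dn_zero]; rfl

/-! ### the characteristic polynomial of `c S` -/

theorem k_star {R : Type} [CommRing R] (V w s : Fin 3 → R)
    (hVw : V 0 * w 0 + V 1 * w 1 + V 2 * w 2 = 2) (hs : s 0 * s 1 = 1) (h2 : s 2 = 1) (M : M3 R)
    (hM : ∀ i j, M i j = ((if i = j then 1 else 0) - V i * w j) * s j) :
    k1 M = (1 - V 0 * w 0) * s 0 + (1 - V 1 * w 1) * s 1 + (1 - V 2 * w 2) ∧
    k2 M = -((1 - V 0 * w 0) * s 1 + (1 - V 1 * w 1) * s 0 + (1 - V 2 * w 2)) ∧ k3 M = -1 := by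
  refine ⟨?_, ?_, ?_⟩
  · simp only [k1, hM, h2, if_true]; ring
  · simp only [k2, hM, h2, if_true, Fin.isValue, Fin.reduceEq, if_false]
    linear_combination (1 - V 0 * w 0 - V 1 * w 1) * hs + (-1 - s 0 - s 1) * hVw
  · simp only [k3, hM, h2, if_true, Fin.isValue, Fin.reduceEq, if_false]
    linear_combination (1 - V 0 * w 0 - V 1 * w 1 - V 2 * w 2) * hs - hVw

/-! ### the data -/

/-- `2 (h + Re μ³)` -/
def sg (μ : ℂ) (h : ℝ) : ℝ := 2 * (h + (μ ^ 3).re)
def sgd (μ : ℂ) (th hd : ℝ) : ℝ := 2 * (hd - 3 * th * (μ ^ 3).im)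

/-- the projection on the line of `B` -/
def sE (B : Mt) (μ : ℂ) (h : ℝ) : Mt :=
  ((1 / sg μ h : ℝ) : ℂ) • (μ • (B * B) - (2 * h * μ ^ 2) • B + μ ^ 3 • (1 : Mt))

def sEd (B Bd : Mt) (μ : ℂ) (th h hd : ℝ) : Mt :=
  ((1 / sg μ h : ℝ) : ℂ) • (μ • (B * Bd + Bd * B) - (2 * h * μ ^ 2) • Bd +
    (Complex.I * th) • (μ • (B * B) - (4 * h * μ ^ 2) • B + (3 * μ ^ 3) • (1 : Mt)) -
    (2 * hd * μ ^ 2) • B) - ((sgd μ th hd / sg μ h : ℝ) : ℂ) • sE B μ h

def sNm (B : Mt) (μ : ℂ) (h : ℝ) : Mt :=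
  star μ • B - (h : ℂ) • (1 : Mt) + (h + star μ ^ 3) • sE B μ h

def sNd' (B Bd : Mt) (μ : ℂ) (th h hd : ℝ) : Mt :=
  star μ • Bd - (Complex.I * th * star μ) • B - (hd : ℂ) • (1 : Mt) +
    (hd - 3 * Complex.I * th * star μ ^ 3) • sE B μ h + (h + star μ ^ 3) • sEd B Bd μ th h hd

section
variable {B Bd : Mt} {μ : ℂ} {th h hd : ℝ}

theorem unit_mul (hμ : ‖μ‖ = 1) : μ * star μ = 1 := by
  rw [Complex.star_def, Complex.mul_conj, Complex.normSq_eq_norm_sq, hμ]
  norm_num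

theorem eE_dm (hg : sg μ h ≠ 0) : eE (dm B Bd) (dn μ (Complex.I * th * μ)) (dn h hd)
    (dn ((1 / sg μ h : ℝ) : ℂ) ((-(sgd μ th hd / sg μ h ^ 2) : ℝ) : ℂ)) =
    dm (sE B μ h) (sEd B Bd μ th h hd) := by
  have e1 : (2 : Dn) * dn h hd * dn μ (Complex.I * th * μ) ^ 2 =
      dn (2 * h * μ ^ 2) (2 * hd * μ ^ 2 + 4 * h * (Complex.I * th) * μ ^ 2) := by
    rw [dn_two, pow_two, dn_mul, dn_mul, dn_mul, dn_inj]
    constructor <;> ring
  have e2 : dn μ (Complex.I * th * μ) ^ 3 = dn (μ ^ 3) (3 * (Complex.I * th) * μ ^ 3) := by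
    rw [pow_succ, pow_two, dn_mul, dn_mul, dn_inj]
    constructor <;> ring
  rw [eE, e1, e2, dm_one, dm_mul, dm_smul, dm_smul, dm_smul, dm_sub, dm_add, dm_smul, dm_inj]
  refine ⟨rfl, ?_⟩
  have e3 : ((-(sgd μ th hd / sg μ h ^ 2) : ℝ) : ℂ) = -((sgd μ th hd / sg μ h : ℝ) : ℂ) *
      ((1 / sg μ h : ℝ) : ℂ) := by
    rw [← Complex.ofReal_neg, ← Complex.ofReal_mul]
    congr 1
    field_simp
  rw [e3, sEd, sE]
  module

theorem eN_dm (hg : sg μ h ≠ 0) : eN (dm B Bd) (dn μ (Complex.I * th * μ))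
    (dn (star μ) (-(Complex.I * th * star μ))) (dn h hd)
    (dn ((1 / sg μ h : ℝ) : ℂ) ((-(sgd μ th hd / sg μ h ^ 2) : ℝ) : ℂ)) =
    dm (sNm B μ h) (sNd' B Bd μ th h hd) := by
  have e2 : dn (star μ) (-(Complex.I * th * star μ)) ^ 3 =
      dn (star μ ^ 3) (-(3 * (Complex.I * th) * star μ ^ 3)) := by
    rw [pow_succ, pow_two, dn_mul, dn_mul, dn_inj]
    constructor <;> ring
  rw [eN, eE_dm hg, e2, dm_one, dn_add, dm_smul, dm_smul, dm_smul, dm_sub, dm_add, dm_inj]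
  refine ⟨rfl, ?_⟩
  rw [sNd']
  module

/-- the relations from the characteristic polynomial over the dual numbers -/
theorem SPC.mk1 (hμ : ‖μ‖ = 1) (hg : sg μ h ≠ 0)
    (hB : dm B Bd * dm B Bd * dm B Bd = (2 * dn h hd * dn μ (Complex.I * th * μ) -
      dn (star μ) (-(Complex.I * th * star μ)) ^ 2) • (dm B Bd * dm B Bd) +
      (2 * dn h hd * dn (star μ) (-(Complex.I * th * star μ)) - dn μ (Complex.I * th * μ) ^ 2) •
        dm B Bd - 1) :
    SPC B Bd μ (-(star μ ^ 2)) th (-(2 * th)) h hd (1 - sE B μ h) (sNm B μ h)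
      (-sEd B Bd μ th h hd) (sNd' B Bd μ th h hd) := by
  have u := unit_mul hμ
  have m1 : dn μ (Complex.I * th * μ) * dn (star μ) (-(Complex.I * th * star μ)) = 1 := by
    rw [dn_mul, dn_one, dn_inj]
    exact ⟨u, by ring⟩
  have g0 : (sg μ h : ℂ) ≠ 0 := by exact_mod_cast hg
  have c3 : star μ ^ 3 = star (μ ^ 3) := by rw [star_pow]
  have g1 : μ ^ 3 + star μ ^ 3 + 2 * h = (sg μ h : ℂ) := by
    rw [c3, sg]
    generalize μ ^ 3 = w
    apply Complex.ext
    · simp; ring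
    · simp
  have g2 : 3 * (Complex.I * th) * μ ^ 3 - 3 * (Complex.I * th) * star μ ^ 3 + 2 * hd =
      (sgd μ th hd : ℂ) := by
    rw [c3, sgd]
    generalize μ ^ 3 = w
    apply Complex.ext
    · simp; ring
    · simp
  have m2 : dn ((1 / sg μ h : ℝ) : ℂ) ((-(sgd μ th hd / sg μ h ^ 2) : ℝ) : ℂ) *
      (dn μ (Complex.I * th * μ) ^ 3 + dn (star μ) (-(Complex.I * th * star μ)) ^ 3 +
        2 * dn h hd) = 1 := by
    have a1 : dn μ (Complex.I * th * μ) ^ 3 + dn (star μ) (-(Complex.I * th * star μ)) ^ 3 +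
        2 * dn h hd = dn (sg μ h) (sgd μ th hd) := by
      rw [dn_two, pow_succ, pow_two, dn_mul, dn_mul, pow_succ, pow_two, dn_mul, dn_mul, dn_mul,
        dn_add, dn_add, dn_inj]
      constructor
      · linear_combination g1
      · linear_combination g2
    rw [a1, dn_mul, dn_one, dn_inj]
    constructor
    · push_cast
      field_simp
    · push_cast
      field_simp
      ring
  have rE := eE_sq m1 m2 hB
  have rNE := eNE m1 m2 hB
  have rEN := eEN m1 m2 hB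
  have rNN := eNN m1 m2 hB
  have rB := eB (B := dm B Bd) (gi := dn ((1 / sg μ h : ℝ) : ℂ)
    ((-(sgd μ th hd / sg μ h ^ 2) : ℝ) : ℂ)) (h := dn h hd) m1
  rw [eE_dm hg] at rE rNE rEN rNN rB
  rw [eN_dm hg] at rNE rEN rNN rB
  have z : (0 : M3 Dn) = dm 0 0 := by
    refine Matrix.ext fun i j => ?_
    rw [dm_app]
    exact dn_zero
  rw [dm_mul, dm_inj] at rE
  rw [dm_mul, z, dm_inj] at rNE rEN
  have hh : dn (h : ℂ) hd ^ 2 - 1 = dn (h ^ 2 - 1) (2 * h * hd) := by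
    rw [pow_two, dn_mul, dn_one, dn_sub, dn_inj]
    constructor <;> ring
  rw [dm_mul, dm_one, dm_sub, hh, dm_smul, dm_inj] at rNN
  have hn : -(dn (star μ) (-(Complex.I * th * star μ)) ^ 2) =
      dn (-(star μ ^ 2)) (2 * (Complex.I * th) * star μ ^ 2) := by
    rw [pow_two, dn_mul, dn_neg, dn_inj]
    constructor <;> ring
  rw [hn, dm_one, dm_sub, dm_smul, dm_add, dm_smul, dm_smul, dm_add, dm_inj] at rB
  obtain ⟨E1, E2⟩ := rE
  obtain ⟨NE1, NE2⟩ := rNE
  obtain ⟨EN1, EN2⟩ := rEN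
  obtain ⟨NN1, NN2⟩ := rNN
  obtain ⟨B1, B2⟩ := rB
  refine ⟨?_, ?_, ?_, ?_, ?_, ?_, ?_, ?_, ?_, ?_⟩
  · rw [mul_sub, sub_mul, sub_mul, E1]; simp
  · rw [mul_sub, NE1]; simp
  · rw [sub_mul, EN1]; simp
  · rw [NN1]; push_cast; rfl
  · have : -sEd B Bd μ th h hd * (1 - sE B μ h) + (1 - sE B μ h) * -sEd B Bd μ th h hd -
        -sEd B Bd μ th h hd = (sE B μ h * sEd B Bd μ th h hd + sEd B Bd μ th h hd * sE B μ h) -
        sEd B Bd μ th h hd := by noncomm_ring
    rw [← sub_eq_zero, this, E2, sub_self]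
  · have : sNd' B Bd μ th h hd * (1 - sE B μ h) + sNm B μ h * -sEd B Bd μ th h hd -
        sNd' B Bd μ th h hd = -(sNm B μ h * sEd B Bd μ th h hd + sNd' B Bd μ th h hd * sE B μ h) := by
      noncomm_ring
    rw [← sub_eq_zero, this, NE2, neg_zero]
  · have : -sEd B Bd μ th h hd * sNm B μ h + (1 - sE B μ h) * sNd' B Bd μ th h hd -
        sNd' B Bd μ th h hd = -(sE B μ h * sNd' B Bd μ th h hd + sEd B Bd μ th h hd * sNm B μ h) := by
      noncomm_ring
    rw [← sub_eq_zero, this, EN2, neg_zero]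
  · rw [add_comm, NN2]
    push_cast
    module
  · refine B1.trans ?_
    module
  · refine B2.trans ?_
    push_cast
    module

end

/-! ### the star frame -/

section
variable {φ : ℝ} {v vd : V3} {a : Bool} {k : ℕ} {μ : ℂ} {th h hd : ℝ}

/-- the diagonal of the rotation -/
def sdg (φ : ℝ) (a : Bool) (k : ℕ) : Fin 3 → ℂ :=
  ![(if a then star (ep φ) else ep φ) ^ k, (if a then ep φ else star (ep φ)) ^ k, 1]

theorem sDm_diag (hk : k % 2 = 0) (A : Mt) (i j : Fin 3) :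
    (A * sDm φ a k) i j = A i j * sdg φ a k j := by
  rw [Matrix.mul_apply, Fin.sum_univ_three, sDm, if_pos hk]
  fin_cases j <;> simp [sdg]

theorem sdg_star : star (sdg φ a k 0) = sdg φ a k 1 ∧ star (sdg φ a k 1) = sdg φ a k 0 ∧
    sdg φ a k 0 * sdg φ a k 1 = 1 := by
  refine ⟨?_, ?_, ?_⟩
  · cases a <;> simp [sdg]
  · cases a <;> simp [sdg]
  · cases a
    · show ep φ ^ k * star (ep φ) ^ k = 1
      exact ep_mul_pow φ k
    · show star (ep φ) ^ k * ep φ ^ k = 1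
      rw [mul_comm]; exact ep_mul_pow φ k

/-- the coefficients of the characteristic polynomial -/
theorem k_cS (hv : brJ 1 v v = 2) (hvd : (brJ 1 vd v).re = 0) (hk : k % 2 = 0) :
    let T := (rfJ 1 v * sDm φ a k).trace
    let Td := (rfd 1 0 v vd * sDm φ a k).trace
    k1 (dm (rfJ 1 v * sDm φ a k) (rfd 1 0 v vd * sDm φ a k)) = dn T Td ∧
    k2 (dm (rfJ 1 v * sDm φ a k) (rfd 1 0 v vd * sDm φ a k)) = dn (-star T) (-star Td) ∧
    k3 (dm (rfJ 1 v * sDm φ a k) (rfd 1 0 v vd * sDm φ a k)) = -1 := by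
  intro T Td
  obtain ⟨s01, s10, ss⟩ := sdg_star (φ := φ) (a := a) (k := k)
  set s := sdg φ a k with hs
  have s2 : s 2 = 1 := rfl
  set w : V3 := ![star (v 0), star (v 1), -star (v 2)] with hw
  set wd : V3 := ![star (vd 0), star (vd 1), -star (vd 2)] with hwd
  have c1 : ∀ i j, (rfJ 1 v * sDm φ a k) i j = ((if i = j then 1 else 0) - v i * w j) * s j := by
    intro i j
    rw [sDm_diag hk, rfJ, Matrix.sub_apply, Matrix.one_apply, Matrix.of_apply, ← hs]
    simp [hw]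
  have c2 : ∀ i j, (rfd 1 0 v vd * sDm φ a k) i j = (-(vd i * w j + v i * wd j)) * s j := by
    intro i j
    rw [sDm_diag hk, rfd, Matrix.neg_apply, Matrix.of_apply, ← hs]
    simp [hw, hwd]
  have hvw : v 0 * w 0 + v 1 * w 1 + v 2 * w 2 = 2 := by
    rw [← hv]
    simp [hw, brJ]
    ring
  have hvw' : (v 0 * wd 0 + vd 0 * w 0) + (v 1 * wd 1 + vd 1 * w 1) + (v 2 * wd 2 + vd 2 * w 2) =
      0 := by
    have h2 : brJ 1 vd v + brJ 1 v vd = 0 := by
      rw [← brJ_star vd v]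
      apply Complex.ext
      · simp [hvd]
      · simp
    rw [← h2]
    simp [hw, hwd, brJ]
    ring
  have K := k_star (R := Dn) (fun i => dn (v i) (vd i)) (fun i => dn (w i) (wd i))
    (fun i => dn (s i) 0) (by
      simp only [dn_mul, dn_add]
      rw [dn_two, dn_inj]
      exact ⟨hvw, hvw'⟩) (by
      simp only [dn_mul]
      rw [dn_one, dn_inj]
      exact ⟨ss, by ring⟩) (by
      simp only [s2]
      exact dn_one.symm)
    (dm (rfJ 1 v * sDm φ a k) (rfd 1 0 v vd * sDm φ a k)) (by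
      intro i j
      have e : (if i = j then (1 : Dn) else 0) = dn (if i = j then 1 else 0) 0 := by
        split_ifs
        · exact dn_one
        · exact dn_zero
      rw [dm_app, c1, c2, e, dn_mul, dn_sub, dn_mul, dn_inj]
      exact ⟨rfl, by ring⟩)
  have hT : T = (1 - v 0 * w 0) * s 0 + (1 - v 1 * w 1) * s 1 + (1 - v 2 * w 2) := by
    show (rfJ 1 v * sDm φ a k).trace = _
    rw [Matrix.trace_fin_three, c1, c1, c1]
    simp [s2]
  have hTd : Td = -(vd 0 * w 0 + v 0 * wd 0) * s 0 - (vd 1 * w 1 + v 1 * wd 1) * s 1 -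
      (vd 2 * w 2 + v 2 * wd 2) := by
    show (rfd 1 0 v vd * sDm φ a k).trace = _
    rw [Matrix.trace_fin_three, c2, c2, c2]
    simp only [s2]
    ring
  have r0 : star (v 0 * w 0) = v 0 * w 0 := by simp [hw, mul_comm]
  have r1 : star (v 1 * w 1) = v 1 * w 1 := by simp [hw, mul_comm]
  have r2 : star (v 2 * w 2) = v 2 * w 2 := by simp [hw, mul_comm]
  have q0 : star (vd 0 * w 0 + v 0 * wd 0) = vd 0 * w 0 + v 0 * wd 0 := by
    simp [hw, hwd, mul_comm, add_comm]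
  have q1 : star (vd 1 * w 1 + v 1 * wd 1) = vd 1 * w 1 + v 1 * wd 1 := by
    simp [hw, hwd, mul_comm, add_comm]
  have q2 : star (vd 2 * w 2 + v 2 * wd 2) = vd 2 * w 2 + v 2 * wd 2 := by
    simp [hw, hwd, mul_comm, add_comm]
  refine ⟨?_, ?_, K.2.2⟩
  · rw [K.1, dn_one]
    simp only [dn_mul, dn_add, dn_sub]
    rw [dn_inj, hT, hTd]
    constructor <;> ring
  · rw [K.2.1, dn_one]
    simp only [dn_mul, dn_add, dn_sub, dn_neg]
    rw [dn_inj, hT, hTd]
    constructor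
    · simp only [star_add, star_sub, star_mul', star_one] at r0 r1 r2 ⊢
      rw [r0, r1, r2, s01, s10]
    · rw [star_sub, star_sub, star_mul', star_mul', star_neg, q0, q1, q2, s01, s10]
      ring

/-- ROW NB4 (a): the spectral data of `c S` -/
theorem SPC.ofT (hv : brJ 1 v v = 2) (hvd : (brJ 1 vd v).re = 0) (hk : k % 2 = 0)
    (hμ : ‖μ‖ = 1) (hg : sg μ h ≠ 0)
    (hT : (rfJ 1 v * sDm φ a k).trace = 2 * h * μ - star μ ^ 2)
    (hTd : (rfd 1 0 v vd * sDm φ a k).trace = 2 * hd * μ + 2 * h * (Complex.I * th * μ) +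
      2 * (Complex.I * th) * star μ ^ 2) :
    SPC (rfJ 1 v * sDm φ a k) (rfd 1 0 v vd * sDm φ a k) μ (-(star μ ^ 2)) th (-(2 * th)) h hd
      (1 - sE (rfJ 1 v * sDm φ a k) μ h) (sNm (rfJ 1 v * sDm φ a k) μ h)
      (-sEd (rfJ 1 v * sDm φ a k) (rfd 1 0 v vd * sDm φ a k) μ th h hd)
      (sNd' (rfJ 1 v * sDm φ a k) (rfd 1 0 v vd * sDm φ a k) μ th h hd) := by
  apply SPC.mk1 hμ hg
  obtain ⟨h1, h2, h3⟩ := k_cS (φ := φ) (a := a) hv hvd hk
  rw [ch3, h1, h2, h3, hT, hTd]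
  have e1 : 2 * dn h hd * dn μ (Complex.I * th * μ) - dn (star μ) (-(Complex.I * th * star μ)) ^ 2 =
      dn (2 * h * μ - star μ ^ 2) (2 * hd * μ + 2 * h * (Complex.I * th * μ) +
      2 * (Complex.I * th) * star μ ^ 2) := by
    rw [dn_two, pow_two, dn_mul, dn_mul, dn_mul, dn_sub, dn_inj]
    constructor <;> ring
  have e2 : 2 * dn h hd * dn (star μ) (-(Complex.I * th * star μ)) - dn μ (Complex.I * th * μ) ^ 2 =
      -dn (-star (2 * h * μ - star μ ^ 2)) (-star (2 * hd * μ + 2 * h * (Complex.I * th * μ) +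
      2 * (Complex.I * th) * star μ ^ 2)) := by
    rw [dn_two, pow_two, dn_mul, dn_mul, dn_mul, dn_sub, dn_neg, dn_inj]
    constructor
    · simp
      ring
    · simp
      ring
  rw [e1, e2]
  module

end

end Pool.Agent.Helper6.MONO.W2
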